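import Mathlib
import Pool.Graph.R_seed8.TH785.DP.Mart

/-!
# Separating positive sets from an almost disjoint family under Martin's axiom
-/

set_option autoImplicit false

namespace Pool.Agent.H728.FU

open Set Cardinal Pool.Agent.W684 Pool.Agent.W684.FM Pool.Agent.TH785.DP

variable {S ι J : Type} {A : ι → Set S}

/-- Under Martin's axiom: an almost disjoint family of countable sets and few sets none of which
is covered by finitely many members of the family and a finite set; then some set `Z` is almost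
disjoint from all members of the family and meets each of the given sets in an infinite set. -/
theorem sep {κ : Cardinal.{0}} (hMA : MartinAxiomCard κ) (hκ : ℵ₀ ≤ κ)
    (hS : #S ≤ κ) (hι : #ι ≤ κ) (hJ : #J ≤ κ) (hc : ∀ i, (A i).Countable)
    (had : ∀ i j, i ≠ j → (A i ∩ A j).Finite) (T : J → Set S)
    (hT : ∀ j (F : Finset ι) (R : Finset S), ∃ s ∈ T j, s ∉ R ∧ ∀ i ∈ F, s ∉ A i) :
    ∃ Z : Set S, (∀ i, (A i ∩ Z).Finite) ∧ ∀ j, (T j ∩ Z).Infinite := by
  classical
  have : Nonempty (Cnd A) := ⟨⟨∅, fun _ => 0, ∅⟩⟩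
  have hSf : #(Finset S) ≤ κ := by
    rcases finite_or_infinite S with h | h
    · exact (lt_aleph0_of_finite (Finset S)).le.trans hκ
    · rw [mk_finset_of_infinite]
      exact hS
  let D : S ⊕ (ι × ℕ) ⊕ (J × Finset S) → Set (Cnd A) := fun x => Sum.elim (fun s => {p | s ∈ p.dom})
    (Sum.elim (fun z => {p | z ∈ p.pr})
      (fun z => {p | ∃ s ∈ p.dom, s ∈ T z.1 ∧ s ∉ z.2 ∧ p.val s = 0})) x
  have hcard : #(S ⊕ (ι × ℕ) ⊕ (J × Finset S)) ≤ κ := by
    simp only [mk_sum, mk_prod, Cardinal.lift_id, mk_nat]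
    exact add_le_of_le hκ hS (add_le_of_le hκ (mul_le_of_le hκ hι hκ) (mul_le_of_le hκ hJ hSf))
  obtain ⟨G, _, hGu, hGd, hGD⟩ := hMA (Cnd A) (ccc hc had) (range D) (mk_range_le.trans hcard) (by
    rintro _ ⟨x, rfl⟩ p
    rcases x with s | z | z
    · by_cases hs : s ∈ p.dom
      · exact ⟨p, hs, le_rfl⟩
      · refine ⟨⟨insert s p.dom, Function.update p.val s (p.pr.sup Prod.snd + 1), p.pr⟩,
          Finset.mem_insert_self _ _, ?_⟩
        refine cnd_le_iff.2 ⟨Finset.subset_insert _ _, ?_, Finset.Subset.refl _, ?_⟩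
        · intro t ht
          have : t ≠ s := fun h => hs (h ▸ ht)
          simp [this]
        · intro t ht ht' z hz _
          have : t = s := by
            rcases Finset.mem_insert.1 ht with h | h
            · exact h
            · exact absurd h ht'
          subst this
          simp only [Function.update_self]
          exact Nat.lt_succ_of_le (Finset.le_sup (f := Prod.snd) hz)
    · refine ⟨⟨p.dom, p.val, insert z p.pr⟩, Finset.mem_insert_self _ _, ?_⟩
      exact cnd_le_iff.2 ⟨Finset.Subset.refl _, fun _ _ => rfl, Finset.subset_insert _ _,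
        fun t ht ht' => absurd ht ht'⟩
    · obtain ⟨s, hsT, hsR, hsA⟩ := hT z.1 (p.pr.image Prod.fst) (p.dom ∪ z.2)
      rw [Finset.mem_union, not_or] at hsR
      refine ⟨⟨insert s p.dom, Function.update p.val s 0, p.pr⟩,
        ⟨s, Finset.mem_insert_self _ _, hsT, hsR.2, by simp⟩, ?_⟩
      refine cnd_le_iff.2 ⟨Finset.subset_insert _ _, ?_, Finset.Subset.refl _, ?_⟩
      · intro t ht
        have : t ≠ s := fun h => hsR.1 (h ▸ ht)
        simp [this]
      · intro t ht ht' w hw htw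
        have : t = s := by
          rcases Finset.mem_insert.1 ht with h | h
          · exact h
          · exact absurd h ht'
        subst this
        exact absurd htw (hsA _ (Finset.mem_image_of_mem _ hw)))
  have h1 : ∀ s : S, ∃ p ∈ G, s ∈ p.dom := by
    intro s
    obtain ⟨p, hp, hps⟩ := hGD (D (Sum.inl s)) ⟨_, rfl⟩
    exact ⟨p, hp, hps⟩
  choose q hq hqs using h1
  have hval : ∀ p ∈ G, ∀ s ∈ p.dom, (q s).val s = p.val s := by
    intro p hp s hs
    obtain ⟨r, _, hr1, hr2⟩ := hGd p hp (q s) (hq s)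
    rw [← hr1.2.1 s hs, ← hr2.2.1 s (hqs s)]
  refine ⟨{s | (q s).val s = 0}, fun i => ?_, fun j hfin => ?_⟩
  · obtain ⟨p, hp, hpz⟩ := hGD (D (Sum.inr (Sum.inl (i, 0)))) ⟨_, rfl⟩
    refine p.dom.finite_toSet.subset ?_
    rintro s ⟨hs, hsn⟩
    by_contra hsd
    obtain ⟨r, _, hr1, hr2⟩ := hGd p hp (q s) (hq s)
    have e1 : r.val s = (q s).val s := hr2.2.1 s (hqs s)
    have e2 := hr1.2.2.2 s (hr2.1 (hqs s)) hsd (i, 0) hpz hs
    rw [e1] at e2
    exact absurd e2 (not_lt.2 (le_of_eq hsn))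
  · obtain ⟨p, hp, s, hs, hsT, hsR, hs0⟩ := hGD (D (Sum.inr (Sum.inr (j, hfin.toFinset)))) ⟨_, rfl⟩
    exact hsR ((Set.Finite.mem_toFinset hfin).2 ⟨hsT, (hval p hp s hs).trans hs0⟩)

end Pool.Agent.H728.FU
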