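import Mathlib
import Pool.Agent.H728.FU.Sep

/-!
# Making a strongly almost disjoint family nowhere maximal
-/

set_option autoImplicit false

namespace Pool.Agent.H728.FU

open Set Cardinal Pool.Agent.W684 Pool.Agent.W684.FM

/-- recursion with invariants -/
theorem rec_exists {L St : Type} [LinearOrder L] [WellFoundedLT L] [Nonempty St]
    (Good : L → (L → St) → Prop)
    (hloc : ∀ y F F', (∀ z ≤ y, F z = F' z) → Good y F → Good y F')
    (hex : ∀ y F, (∀ z < y, Good z F) → ∃ st, Good y (Function.update F y st)) :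
    ∃ F, ∀ y, Good y F := by
  classical
  let ext : (y : L) → ((z : L) → z < y → St) → L → St := fun y ih z =>
    if h : z < y then ih z h else Classical.arbitrary St
  let step : (y : L) → ((z : L) → z < y → St) → St := fun y ih =>
    if h : ∃ st, Good y (Function.update (ext y ih) y st) then h.choose else Classical.arbitrary St
  let F : L → St := WellFounded.fix (wellFounded_lt (α := L)) step
  have hF : ∀ y, F y = step y fun z _ => F z := fun y => WellFounded.fix_eq _ _ _
  refine ⟨F, fun y => ?_⟩
  induction y using WellFoundedLT.induction with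
  | ind y ih =>
    have h1 : ∀ z < y, Good z (ext y fun z _ => F z) := by
      intro z hz
      refine hloc z F _ (fun w hw => ?_) (ih z hz)
      simp [ext, lt_of_le_of_lt hw hz]
    have h2 := hex y _ h1
    have h3 : F y = h2.choose := by
      rw [hF y]
      simp only [step]
      rw [dif_pos h2]
    refine hloc y _ F (fun z hz => ?_) h2.choose_spec
    rcases eq_or_lt_of_le hz with rfl | hz
    · rw [Function.update_self, h3]
    · rw [Function.update_of_ne hz.ne]
      simp [ext, hz]

/-- `E` is not covered by finitely many members of the family and a finite set -/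
def Pos {S ι : Type} (A : ι → Set S) (E : Set S) : Prop :=
  ∀ (F : Finset ι) (R : Finset S), ∃ s ∈ E, s ∉ R ∧ ∀ i ∈ F, s ∉ A i

/-- `E` has an infinite subset almost disjoint from the family -/
def Out {S ι : Type} (A : ι → Set S) (E : Set S) : Prop :=
  ∃ B ⊆ E, B.Infinite ∧ ∀ i, (B ∩ A i).Finite

theorem Pos.infinite {S ι : Type} {A : ι → Set S} {E : Set S} (h : Pos A E) : E.Infinite := by
  intro hf
  obtain ⟨s, hs, hs', -⟩ := h ∅ hf.toFinset
  exact hs' ((Set.Finite.mem_toFinset hf).2 hs)

/-- if only finitely many members meet `E` in an infinite set, there is no problem -/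
theorem out_of_finite {S ι : Type} {A : ι → Set S} {E : Set S} (h : Pos A E)
    (hf : {i | (E ∩ A i).Infinite}.Finite) : Out A E := by
  classical
  refine ⟨E \ ⋃ i ∈ {i | (E ∩ A i).Infinite}, A i, sdiff_subset, ?_, ?_⟩
  · intro hfin
    obtain ⟨s, hs, hsR, hsA⟩ := h hf.toFinset hfin.toFinset
    refine hsR ((Set.Finite.mem_toFinset hfin).2 ⟨hs, ?_⟩)
    intro hs'
    obtain ⟨i, hi, hsi⟩ := mem_iUnion₂.1 hs'
    exact hsA i ((Set.Finite.mem_toFinset hf).2 hi) hsi
  · intro i
    by_cases hi : (E ∩ A i).Infinite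
    · refine Set.finite_empty.subset ?_
      rintro s ⟨⟨hs, hs'⟩, hsi⟩
      exact hs' (mem_iUnion₂.2 ⟨i, hi, hsi⟩)
    · rw [not_infinite] at hi
      exact hi.subset fun s hs => ⟨hs.1.1, hs.2⟩

/-- reduction to countable sets -/
theorem out_of_countable {S ι : Type} {A : ι → Set S}
    (had : ∀ i j, i ≠ j → (A i ∩ A j).Finite)
    (h : ∀ E : Set S, E.Countable → Pos A E → Out A E) (E : Set S) (hE : Pos A E) : Out A E := by
  classical
  by_cases hf : {i | (E ∩ A i).Infinite}.Finite
  · exact out_of_finite hE hf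
  · let e := Set.Infinite.natEmbedding _ hf
    let C : ℕ → Set S := fun n => range ((e n).2.natEmbedding.trans (Function.Embedding.subtype _))
    have hC1 : ∀ n, C n ⊆ E ∩ A (e n).1 := by
      rintro n _ ⟨m, rfl⟩
      exact (((e n).2.natEmbedding) m).2
    have hC2 : ∀ n, (C n).Infinite := fun n =>
      infinite_range_of_injective (Function.Embedding.injective _)
    obtain ⟨B, hB, hBi, hBA⟩ := h (⋃ n, C n) (countable_iUnion fun n => countable_range _) (by
      intro F R
      obtain ⟨n, hn⟩ : ∃ n, (e n).1 ∉ F := by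
        by_contra hcon
        push Not at hcon
        exact (infinite_of_injective_forall_mem (s := (F : Set ι)) (f := fun n => (e n).1)
          (fun m n h => e.injective (Subtype.ext h)) hcon) F.finite_toSet
      have hfin : ((⋃ i ∈ F, (A (e n).1 ∩ A i)) ∪ R).Finite := by
        refine Set.Finite.union (F.finite_toSet.biUnion fun i hi => had _ _ fun h' => hn ?_)
          R.finite_toSet
        rw [h']
        exact hi
      obtain ⟨s, hs, hs'⟩ := ((hC2 n).sdiff hfin).nonempty
      rw [mem_union, not_or] at hs'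
      refine ⟨s, mem_iUnion.2 ⟨n, hs⟩, hs'.2, fun i hi hsi => hs'.1 ?_⟩
      exact mem_iUnion₂.2 ⟨i, hi, (hC1 n hs).2, hsi⟩)
    exact ⟨B, hB.trans (iUnion_subset fun n => (hC1 n).trans inter_subset_left), hBi, hBA⟩

variable {P : Type}

/-- graph of the paired function -/
def gr (h : P → ℕ) : Set (P × ℕ) := {s | s.2 = h s.1}

/-- a column -/
def col (q : P × ℕ) : Set (P × ℕ) := {s | s.1 = q.1 ∧ s.2.unpair.1 = q.2}

theorem gr_inter_gr_finite {h h' : P → ℕ} (hh : {p | h p = h' p}.Finite) :
    (gr h ∩ gr h').Finite := by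
  refine (hh.image fun p => (p, h p)).subset ?_
  rintro ⟨p, n⟩ ⟨h1, h2⟩
  simp only [gr, mem_ofPred_eq] at h1 h2
  exact ⟨p, h1.symm.trans h2, by rw [h1]⟩

theorem gr_inter_col_finite (h : P → ℕ) (q : P × ℕ) : (gr h ∩ col q).Finite := by
  refine (finite_singleton (q.1, h q.1)).subset ?_
  rintro ⟨p, n⟩ ⟨h1, h2, -⟩
  simp only [gr, mem_ofPred_eq] at h1 h2
  subst h2
  simp [h1]

theorem col_inter_col {q q' : P × ℕ} (h : q ≠ q') : col q ∩ col q' = ∅ := by
  refine eq_empty_of_forall_notMem ?_
  rintro ⟨p, n⟩ ⟨⟨h1, h2⟩, h3, h4⟩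
  exact h (Prod.ext (h1.symm.trans h3) (h2.symm.trans h4))

theorem col_infinite (q : P × ℕ) : (col q).Infinite := by
  refine infinite_of_injective_forall_mem (f := fun m => (q.1, Nat.pair q.2 m)) ?_ ?_
  · intro m n h
    have := congrArg Prod.snd h
    simp only [Nat.pair_eq_pair, true_and] at this
    exact this
  · intro m
    exact ⟨rfl, by simp⟩

theorem gr_infinite [Infinite P] (h : P → ℕ) : (gr h).Infinite :=
  infinite_of_injective_forall_mem (f := fun p => (p, h p))
    (fun _ _ h => congrArg Prod.fst h) fun _ => rfl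

end Pool.Agent.H728.FU
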