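import Mathlib
import Pool.Agent.H728.FU.Rec

/-!
# Making a strongly almost disjoint family nowhere maximal: the recursion
-/

set_option autoImplicit false

namespace Pool.Agent.H728.FU

open Set Cardinal Pool.Agent.W684 Pool.Agent.W684.FM

variable {P L : Type} [LinearOrder L]

/-- the graph at stage `y` -/
def GR (g : L → P → ℕ) (F : L → (P → ℕ) × Set (P × ℕ)) (y : L) : Set (P × ℕ) :=
  gr fun p => Nat.pair (g y p) ((F y).1 p)

/-- the family at stage `y` -/
def Fam (g : L → P → ℕ) (F : L → (P → ℕ) × Set (P × ℕ)) (y : L) :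
    {z // z ≤ y} ⊕ (P × ℕ) → Set (P × ℕ) :=
  Sum.elim (fun z => GR g F z) col

/-- the invariants of the recursion -/
structure Good (g : L → P → ℕ) (e : L → ℕ → P × ℕ) (y : L) (F : L → (P → ℕ) × Set (P × ℕ)) :
    Prop where
  g1 : ∀ η < y, (GR g F y ∩ (F η).2).Finite
  g2 : (F y).2 ⊆ range (e y)
  g3 : ∀ q, ((F y).2 ∩ col q).Finite
  g4 : ∀ η < y, ((F y).2 ∩ (F η).2).Finite
  g5 : ∀ z ≤ y, ((F y).2 ∩ GR g F z).Finite
  g6 : (∀ η < y, (range (e y) ∩ (F η).2).Finite) → Pos (Fam g F y) (range (e y)) →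
    (F y).2.Infinite

theorem Good.loc (g : L → P → ℕ) (e : L → ℕ → P × ℕ) (y : L) (F F' : L → (P → ℕ) × Set (P × ℕ))
    (h : ∀ z ≤ y, F z = F' z) (hF : Good g e y F) : Good g e y F' := by
  have h1 : ∀ z ≤ y, GR g F z = GR g F' z := fun z hz => by simp only [GR, h z hz]
  have h2 : Fam g F y = Fam g F' y := by
    funext i
    rcases i with z | q
    · exact h1 z.1 z.2
    · rfl
  have hy := h y le_rfl
  refine ⟨fun η hη => ?_, ?_, fun q => ?_, fun η hη => ?_, fun z hz => ?_, fun k1 k2 => ?_⟩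
  · rw [← h1 y le_rfl, ← h η hη.le]
    exact hF.g1 η hη
  · rw [← hy]
    exact hF.g2
  · rw [← hy]
    exact hF.g3 q
  · rw [← hy, ← h η hη.le]
    exact hF.g4 η hη
  · rw [← hy, ← h1 z hz]
    exact hF.g5 z hz
  · rw [← hy]
    refine hF.g6 (fun η hη => ?_) ?_
    · rw [h η hη.le]
      exact k1 η hη
    · rw [h2]
      exact k2

theorem Good.ex [Infinite P] {κ : Cardinal.{0}} (y : L) (hMA : MartinAxiomCard κ)
    (hP : #P ≤ κ) (hy : #{z // z ≤ y} ≤ κ) (g : L → P → ℕ)
    (hg : ∀ y y', y ≠ y' → {p | g y p = g y' p}.Finite)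
    (e : L → ℕ → P × ℕ) (F : L → (P → ℕ) × Set (P × ℕ)) (hF : ∀ z < y, Good g e z F) :
    ∃ st, Good g e y (Function.update F y st) := by
  classical
  have hκ : ℵ₀ ≤ κ := (Cardinal.aleph0_le_mk P).trans hP
  have hPN : #(P × ℕ) ≤ κ := by
    rw [mk_prod, Cardinal.lift_id, Cardinal.lift_id, mk_nat]
    exact mul_le_of_le hκ hP hκ
  have hy' : #{z // z < y} ≤ κ := (mk_subtype_mono fun z hz => le_of_lt hz).trans hy
  obtain ⟨Z, hZ1, hZ2⟩ := sep (A := fun η : {z // z < y} => (F η.1).2) (J := P) hMA hκ hPN hy' hP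
    (fun η => (countable_range _).mono (hF η.1 η.2).g2) (by
      intro η η' hne
      rcases lt_or_gt_of_ne (fun h => hne (Subtype.ext h) : η.1 ≠ η'.1) with h | h
      · rw [inter_comm]
        exact (hF η'.1 η'.2).g4 η.1 h
      · exact (hF η.1 η.2).g4 η'.1 h)
    (fun p => col (p, g y p)) (by
      intro p F' R
      have hfin : ((⋃ i ∈ F', ((F i.1).2 ∩ col (p, g y p))) ∪ R).Finite :=
        (F'.finite_toSet.biUnion fun i _ => (hF i.1 i.2).g3 _).union R.finite_toSet
      obtain ⟨s, hs, hs'⟩ := ((col_infinite (p, g y p)).sdiff hfin).nonempty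
      rw [mem_union, not_or] at hs'
      exact ⟨s, hs, hs'.2, fun i hi hsi => hs'.1 (mem_iUnion₂.2 ⟨i, hi, hsi, hs⟩)⟩)
  choose s hs using fun p => (hZ2 p).nonempty
  let m : P → ℕ := fun p => (s p).2.unpair.2
  have hm : ∀ p, (p, Nat.pair (g y p) (m p)) = s p := by
    intro p
    obtain ⟨⟨h1, h2⟩, -⟩ := hs p
    refine Prod.ext h1.symm ?_
    show Nat.pair (g y p) (s p).2.unpair.2 = (s p).2
    have h3 : (s p).2.unpair.1 = g y p := h2
    rw [← h3, Nat.pair_unpair]
  have hmZ : gr (fun p => Nat.pair (g y p) (m p)) ⊆ Z := by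
    rintro ⟨p, n⟩ h
    have h1 : n = Nat.pair (g y p) (m p) := h
    rw [h1, hm p]
    exact (hs p).2
  -- the new graph and the old ones
  let F1 : L → (P → ℕ) × Set (P × ℕ) := Function.update F y (m, ∅)
  have hGR : ∀ B z, GR g (Function.update F y (m, B)) z = GR g F1 z := by
    intro B z
    by_cases hz : z = y
    · subst hz
      simp [GR, F1]
    · simp [GR, F1, Function.update_of_ne hz]
  have hGRy : GR g F1 y ⊆ Z := by
    simpa [GR, F1] using hmZ
  have hFam : ∀ B, Fam g (Function.update F y (m, B)) y = Fam g F1 y := by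
    intro B
    funext i
    rcases i with z | q
    · exact hGR B z.1
    · rfl
  have hupd : ∀ B, ∀ η < y, Function.update F y (m, B) η = F η := fun B η hη =>
    Function.update_of_ne hη.ne _ _
  have hself : ∀ B, (Function.update F y (m, B) y).2 = B := fun B => by simp
  have had : ∀ i j, i ≠ j → (Fam g F1 y i ∩ Fam g F1 y j).Finite := by
    rintro (z | q) (z' | q') hne
    · show (gr (fun p => Nat.pair (g z.1 p) ((F1 z.1).1 p)) ∩
        gr fun p => Nat.pair (g z'.1 p) ((F1 z'.1).1 p)).Finite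
      refine gr_inter_gr_finite ((hg z.1 z'.1 fun h => hne (by rw [Subtype.ext h])).subset ?_)
      intro p hp
      have hp' := hp
      simp only [mem_ofPred_eq, Nat.pair_eq_pair] at hp'
      exact hp'.1
    · exact gr_inter_col_finite (fun p => Nat.pair (g z.1 p) ((F1 z.1).1 p)) q'
    · rw [inter_comm]
      exact gr_inter_col_finite (fun p => Nat.pair (g z'.1 p) ((F1 z'.1).1 p)) q
    · show (col q ∩ col q').Finite
      rw [col_inter_col fun h => hne (by rw [h])]
      exact finite_empty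
  by_cases hc : (∀ η < y, (range (e y) ∩ (F η).2).Finite) ∧ Pos (Fam g F1 y) (range (e y))
  · obtain ⟨hc1, hc2⟩ := hc
    obtain ⟨Z', hZ'1, hZ'2⟩ := sep (A := fun i => Fam g F1 y i ∩ range (e y)) (J := Unit) hMA hκ hPN
      (by
        rw [mk_sum, Cardinal.lift_id, Cardinal.lift_id]
        exact add_le_of_le hκ hy hPN)
      (by
        rw [mk_eq_one]
        exact one_le_aleph0.trans hκ)
      (fun i => (countable_range (e y)).mono inter_subset_right)
      (fun i j hij => (had i j hij).subset fun s hs => ⟨hs.1.1, hs.2.1⟩)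
      (fun _ => range (e y)) (by
        intro _ F' R
        obtain ⟨s, hs1, hs2, hs3⟩ := hc2 F' R
        exact ⟨s, hs1, hs2, fun i hi hsi => hs3 i hi hsi.1⟩)
    have key : ∀ i, ((range (e y) ∩ Z') ∩ Fam g F1 y i).Finite := fun i =>
      (hZ'1 i).subset fun s hs => ⟨⟨hs.2, hs.1.1⟩, hs.1.2⟩
    refine ⟨(m, range (e y) ∩ Z'), ⟨fun η hη => ?_, ?_, fun q => ?_, fun η hη => ?_, fun z hz => ?_,
      fun _ _ => ?_⟩⟩
    · rw [hGR, hupd _ η hη, inter_comm]
      exact (hZ1 ⟨η, hη⟩).subset fun s hs => ⟨hs.1, hGRy hs.2⟩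
    · rw [hself]
      exact inter_subset_left
    · rw [hself]
      exact key (Sum.inr q)
    · rw [hself, hupd _ η hη]
      exact (hc1 η hη).subset fun s hs => ⟨hs.1.1, hs.2⟩
    · rw [hself, hGR]
      exact key (Sum.inl ⟨z, hz⟩)
    · rw [hself]
      exact hZ'2 ()
  · refine ⟨(m, ∅), ⟨fun η hη => ?_, ?_, fun q => ?_, fun η hη => ?_, fun z hz => ?_,
      fun h1 h2 => ?_⟩⟩
    · rw [hGR, hupd _ η hη, inter_comm]
      exact (hZ1 ⟨η, hη⟩).subset fun s hs => ⟨hs.1, hGRy hs.2⟩
    · rw [hself]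
      exact empty_subset _
    · rw [hself, empty_inter]
      exact finite_empty
    · rw [hself, empty_inter]
      exact finite_empty
    · rw [hself, empty_inter]
      exact finite_empty
    · refine absurd ⟨fun η hη => ?_, ?_⟩ hc
      · have := h1 η hη
        rwa [hupd _ η hη] at this
      · rwa [hFam] at h2

/-- **The recursion.** Under Martin's axiom for all cardinals below the size of `L` the values of
a strongly almost disjoint family can be changed so that the graphs form a nowhere maximal almost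
disjoint family. -/
theorem nowhere_max [Infinite P] [WellFoundedLT L] (hP : #P < #L)
    (hseg : ∀ y : L, #{z // z ≤ y} < #L) (hLω : #L ^ ℵ₀ = #L)
    (hMA : ∀ κ < #L, MartinAxiomCard κ) (g : L → P → ℕ)
    (hg : ∀ y y', y ≠ y' → {p | g y p = g y' p}.Finite) :
    ∃ m : L → P → ℕ, ∀ E, Pos (fun y => gr fun p => Nat.pair (g y p) (m y p)) E →
      Out (fun y => gr fun p => Nat.pair (g y p) (m y p)) E := by
  classical
  obtain ⟨e, he⟩ : ∃ e : L → ℕ → P × ℕ, Function.Surjective e := by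
    obtain ⟨p0⟩ : Nonempty P := inferInstance
    have : Nonempty (ℕ → P × ℕ) := ⟨fun _ => (p0, 0)⟩
    have h1 : #(ℕ → P × ℕ) ≤ #L := by
      rw [← Cardinal.power_def, mk_nat]
      refine (Cardinal.power_le_power_right ?_).trans hLω.le
      rw [mk_prod, Cardinal.lift_id, Cardinal.lift_id, mk_nat]
      have h2 : ℵ₀ ≤ #L := (Cardinal.aleph0_le_mk P).trans hP.le
      exact mul_le_of_le h2 hP.le h2
    obtain ⟨f⟩ := h1
    exact ⟨Function.invFun f, Function.invFun_surjective f.injective⟩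
  obtain ⟨F, hF⟩ := rec_exists (Good g e) (Good.loc g e) (fun y F hF =>
    Good.ex y (hMA (max #P #{z // z ≤ y}) (max_lt hP (hseg y))) (le_max_left _ _) (le_max_right _ _)
      g hg e F hF)
  refine ⟨fun y => (F y).1, ?_⟩
  have had : ∀ y y', y ≠ y' → (GR g F y ∩ GR g F y').Finite := by
    intro y y' hne
    refine gr_inter_gr_finite ((hg y y' hne).subset ?_)
    intro p hp
    simp only [mem_ofPred_eq, Nat.pair_eq_pair] at hp
    exact hp.1
  have hBG : ∀ η z, ((F η).2 ∩ GR g F z).Finite := by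
    intro η z
    rcases le_or_gt z η with h | h
    · exact (hF η).g5 z h
    · rw [inter_comm]
      exact (hF z).g1 η h
  intro E hE
  refine out_of_countable (A := GR g F) had (fun E hEc hE => ?_) E hE
  by_cases h1 : ∃ q, (E ∩ col q).Infinite
  · obtain ⟨q, hq⟩ := h1
    refine ⟨E ∩ col q, inter_subset_left, hq, fun z => ?_⟩
    refine (gr_inter_col_finite (fun p => Nat.pair (g z p) ((F z).1 p)) q).subset ?_
    exact fun s hs => ⟨hs.2, hs.1.2⟩
  by_cases h2 : ∃ η, (E ∩ (F η).2).Infinite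
  · obtain ⟨η, hη⟩ := h2
    exact ⟨E ∩ (F η).2, inter_subset_left, hη, fun z => (hBG η z).subset fun s hs =>
      ⟨hs.1.2, hs.2⟩⟩
  push Not at h1 h2
  obtain ⟨e', he'⟩ := hEc.exists_eq_range hE.infinite.nonempty
  obtain ⟨y, rfl⟩ := he e'
  subst he'
  refine ⟨(F y).2, (hF y).g2, (hF y).g6 (fun η _ => ?_) ?_, fun z => hBG y z⟩
  · exact h2 η
  · intro F' R
    let F1 : Finset L := F'.biUnion fun i => Sum.elim (fun z => {z.1}) (fun _ => ∅) i
    have hfin : (⋃ i ∈ F', Sum.elim (fun _ => (∅ : Set (P × ℕ)))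
        (fun q => range (e y) ∩ col q) i).Finite := by
      refine F'.finite_toSet.biUnion fun i _ => ?_
      rcases i with z | q
      · exact finite_empty
      · exact h1 q
    obtain ⟨s, hs1, hs2, hs3⟩ := hE F1 (R ∪ hfin.toFinset)
    rw [Finset.mem_union, not_or, Set.Finite.mem_toFinset] at hs2
    refine ⟨s, hs1, hs2.1, fun i hi hsi => ?_⟩
    rcases i with z | q
    · refine hs3 z.1 ?_ hsi
      exact Finset.mem_biUnion.2 ⟨Sum.inl z, hi, Finset.mem_singleton_self _⟩
    · exact hs2.2 (mem_iUnion₂.2 ⟨Sum.inr q, hi, hs1, hsi⟩)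

end Pool.Agent.H728.FU
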