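import Mathlib
import Pool.Graph.R_pool_sql_team_ae5b0c61.H33.CImg2
import Pool.Agent.H728.FU.Rec

/-!
# Fréchet–Urysohn one point compactifications of Mrówka spaces
-/

set_option autoImplicit false

namespace Pool.Agent.H728.FU

open Set Filter Topology Cardinal Pool.Agent.H33.CImg2

section

variable {D Y : Type} {A : Y → Set D}

theorem tendsto_none (f : ℕ → MK A) (h : ∀ c, {n | f n ∈ U A c}.Finite) :
    Tendsto f atTop (@nhds (MK A) _ none) := by
  have h0 := (ind (A := A)).nhds_eq_comap none
  rw [h0, tendsto_comap_iff]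
  refine tendsto_pi_nhds.2 fun c => tendsto_const_nhds.congr' ?_
  have h1 : ∀ᶠ n in atTop, f n ∉ U A c := by
    rw [← Nat.cofinite_eq_atTop]
    exact (h c).compl_mem_cofinite
  filter_upwards [h1] with n hn
  exact ((notMem_iff_boolIndicator _ _).1 (none_U c)).trans
    ((notMem_iff_boolIndicator _ _).1 hn).symm

theorem tendsto_inr (hA : ∀ y y', y ≠ y' → (A y ∩ A y').Finite) {y : Y} (d : ℕ → D)
    (hd : Function.Injective d) (hdA : ∀ n, d n ∈ A y) :
    Tendsto (fun n => (some (.inl (d n)) : MK A)) atTop (@nhds (MK A) _ (some (.inr y))) := by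
  refine (tendsto_iff_ultrafilter (α := ℕ) (β := MK A) (fun n => some (.inl (d n))) atTop
    (@nhds (MK A) _ (some (.inr y)))).2 ?_
  intro g hg
  have hinj : Function.Injective fun n => (some (.inl (d n)) : MK A) := fun m n h =>
    hd (Sum.inl.inj (Option.some.inj h))
  refine to_top hA (𝒰 := g.map fun n => (some (.inl (d n)) : MK A)) ?_ ?_
  · refine (map_mono (hg.trans Nat.cofinite_eq_atTop.ge)).trans ?_
    exact hinj.tendsto_cofinite
  · exact Ultrafilter.mem_map.2 (univ_mem' fun n => Or.inr ⟨_, hdA n, rfl⟩)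

/-- If every positive set of isolated points has an infinite subset almost disjoint from the
family, the compactification is Fréchet–Urysohn. -/
theorem frechetUrysohn (hA : ∀ y y', y ≠ y' → (A y ∩ A y').Finite)
    (h : ∀ E : Set D, Pos A E → Out A E) : FrechetUrysohnSpace (MK A) := by
  classical
  refine ⟨fun S x hx => ?_⟩
  by_cases hxS : x ∈ S
  · exact ⟨fun _ => x, fun _ => hxS, tendsto_const_nhds⟩
  rcases x with _ | d | y
  · -- the point at infinity
    by_cases h1 : {y | (some (.inr y) : MK A) ∈ S}.Finite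
    · have hpos : Pos A {d | (some (.inl d) : MK A) ∈ S} := by
        intro F R
        by_contra hcon
        push Not at hcon
        let O : Set (MK A) := (⋃ y ∈ F, U A (.inr y)) ∪ (⋃ y ∈ h1.toFinset, U A (.inr y)) ∪
          ⋃ d ∈ R, U A (.inl d)
        have hO : IsClosed O := by
          refine IsClosed.union (IsClosed.union ?_ ?_) ?_ <;>
          exact isClosed_biUnion_finset fun _ _ => (clopen_U _).1
        have hSO : S ⊆ O := by
          rintro (_ | d | y) hs
          · exact absurd hs hxS
          · by_cases hd : d ∈ R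
            · exact Or.inr (mem_iUnion₂.2 ⟨d, hd, rfl⟩)
            · obtain ⟨y, hy, hdy⟩ := hcon d hs hd
              exact Or.inl (Or.inl (mem_iUnion₂.2 ⟨y, hy, Or.inr ⟨d, hdy, rfl⟩⟩))
          · exact Or.inl (Or.inr (mem_iUnion₂.2 ⟨y, (Set.Finite.mem_toFinset h1).2 hs,
              self_U _⟩))
        rcases closure_minimal hSO hO hx with (h2 | h2) | h2
        all_goals
          obtain ⟨c, -, hc⟩ := mem_iUnion₂.1 h2
          exact none_U _ hc
      obtain ⟨B, hB, hBi, hBA⟩ := h _ hpos
      let e := hBi.natEmbedding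
      refine ⟨fun n => some (.inl (e n).1), fun n => hB (e n).2, tendsto_none _ fun c => ?_⟩
      have hinj : Function.Injective fun n => (e n).1 := fun m n h => e.injective (Subtype.ext h)
      rcases c with d | y
      · refine ((finite_singleton d).preimage (f := fun n => (e n).1) hinj.injOn).subset ?_
        intro n hn
        have h2 : (some (.inl (e n).1) : MK A) = some (.inl d) := hn
        exact Sum.inl.inj (Option.some.inj h2)
      · refine ((hBA y).preimage (f := fun n => (e n).1) hinj.injOn).subset ?_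
        intro n hn
        rcases hn with hn | ⟨d, hd, hd'⟩
        · cases hn
        · have h2 := Sum.inl.inj (Option.some.inj hd')
          refine ⟨(e n).2, ?_⟩
          show (e n).1 ∈ A y
          rw [← h2]
          exact hd
    · let e := Set.Infinite.natEmbedding _ h1
      refine ⟨fun n => some (.inr (e n).1), fun n => (e n).2, tendsto_none _ fun c => ?_⟩
      have hinj : Function.Injective fun n => (e n).1 := fun m n h => e.injective (Subtype.ext h)
      rcases c with d | y
      · refine finite_empty.subset ?_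
        intro n hn
        have h2 : (some (.inr (e n).1) : MK A) = some (.inl d) := hn
        cases h2
      · refine ((finite_singleton y).preimage (f := fun n => (e n).1) hinj.injOn).subset ?_
        intro n hn
        have h2 := top_U (A := A) (y := (e n).1) (c := .inr y) hn
        exact (Sum.inr.inj h2).symm
  · -- isolated points
    obtain ⟨x', hx', hs⟩ := mem_closure_iff.1 hx _ (clopen_U (.inl d)).2 (self_U _)
    have h2 : x' = some (.inl d) := hx'
    exact absurd (h2 ▸ hs) hxS
  · -- top points
    have h1 : {d | d ∈ A y ∧ (some (.inl d) : MK A) ∈ S}.Infinite := by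
      intro hfin
      have hO : IsOpen (U A (.inr y) \ ⋃ d ∈ hfin.toFinset, U A (.inl d)) :=
        (clopen_U _).2.sdiff (isClosed_biUnion_finset fun _ _ => (clopen_U _).1)
      obtain ⟨x', ⟨hx1, hx2⟩, hs⟩ := mem_closure_iff.1 hx _ hO ⟨self_U _, fun h' => by
        obtain ⟨c, -, hc⟩ := mem_iUnion₂.1 h'
        cases hc⟩
      rcases hx1 with rfl | ⟨d, hd, rfl⟩
      · exact hxS hs
      · exact hx2 (mem_iUnion₂.2 ⟨d, (Set.Finite.mem_toFinset hfin).2 ⟨hd, hs⟩, rfl⟩)
    let e := h1.natEmbedding
    exact ⟨fun n => some (.inl (e n).1), fun n => (e n).2.2, tendsto_inr hA (fun n => (e n).1)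
      (fun m n h => e.injective (Subtype.ext h)) fun n => (e n).2.1⟩

end

/-- the branch through the Cantor tree -/
def br (x : ℕ → Bool) : Set (ℕ × Finset ℕ) :=
  range fun n => (n, (Finset.range n).filter fun i => x i = true)

theorem mem_br {x x' : ℕ → Bool} {n : ℕ}
    (h : (n, (Finset.range n).filter fun i => x i = true) ∈ br x') {i : ℕ} (hi : i < n) :
    x i = x' i := by
  obtain ⟨m, hm⟩ := h
  obtain ⟨rfl, h⟩ := Prod.mk.inj hm
  have := Finset.ext_iff.1 h i
  simp only [Finset.mem_filter, Finset.mem_range, hi, true_and] at this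
  exact Bool.eq_iff_iff.2 this.symm

/-- A family of branches through the Cantor tree is nowhere maximal. -/
theorem out_br {Y : Type} (a : Y → ℕ → Bool) (ha : a.Injective) (E : Set (ℕ × Finset ℕ))
    (hE : Pos (fun y => br (a y)) E) : Out (fun y => br (a y)) E := by
  classical
  by_cases hf : {y | (E ∩ br (a y)).Infinite}.Finite
  · exact out_of_finite hE hf
  let e := Set.Infinite.natEmbedding _ hf
  obtain ⟨x, -, φ, hφ, hx⟩ := (isCompact_univ (X := ℕ → Bool)).tendsto_subseq
    (x := fun n => a (e n).1) fun _ => mem_univ _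
  -- drop the index, if any, with value `x`
  obtain ⟨N, hN⟩ : ∃ N, ∀ n, N ≤ n → a (e (φ n)).1 ≠ x := by
    by_cases h1 : ∃ n, a (e (φ n)).1 = x
    · obtain ⟨n, hn⟩ := h1
      refine ⟨n + 1, fun m hm hmx => ?_⟩
      have h2 : m = n := hφ.injective (e.injective (Subtype.ext (ha (hmx.trans hn.symm))))
      omega
    · push Not at h1
      exact ⟨0, fun n _ => h1 n⟩
  have hex : ∀ k, ∃ m, k ≤ m ∧ (m, (Finset.range m).filter fun i => a (e (φ (N + k))).1 i = true) ∈ E ∧
      ∃ i < m, a (e (φ (N + k))).1 i ≠ x i := by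
    intro k
    obtain ⟨i, hi⟩ := Function.ne_iff.1 (hN (N + k) (Nat.le_add_right _ _))
    have h1 : (E ∩ br (a (e (φ (N + k))).1)).Infinite := (e (φ (N + k))).2
    have h2 : ((fun m => (m, (Finset.range m).filter fun i => a (e (φ (N + k))).1 i = true)) ''
        Iic (max k i)).Finite := (finite_Iic _).image _
    obtain ⟨s, ⟨hs1, m, hm⟩, hs2⟩ := (h1.sdiff h2).nonempty
    have h3 : max k i < m := by
      by_contra hcon
      exact hs2 ⟨m, not_lt.1 hcon, hm⟩
    refine ⟨m, (le_max_left k i).trans h3.le, ?_, i, (le_max_right k i).trans_lt h3, hi⟩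
    have h4 : (m, (Finset.range m).filter fun i => a (e (φ (N + k))).1 i = true) = s := hm
    rw [h4]
    exact hs1
  choose m hm1 hm2 hm3 using hex
  let f : ℕ → ℕ × Finset ℕ := fun k =>
    (m k, (Finset.range (m k)).filter fun i => a (e (φ (N + k))).1 i = true)
  refine ⟨range f, ?_, ?_, fun y => ?_⟩
  · rintro _ ⟨k, rfl⟩
    exact hm2 k
  · intro hfin
    have h1 := hfin.image Prod.fst
    obtain ⟨M, hM⟩ := h1.bddAbove
    have h2 : m (M + 1) ≤ M := hM ⟨f (M + 1), ⟨M + 1, rfl⟩, rfl⟩
    have h3 := hm1 (M + 1)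
    omega
  · by_cases hy : a y = x
    · refine finite_empty.subset ?_
      rintro _ ⟨⟨k, rfl⟩, hk⟩
      obtain ⟨i, hi, hne⟩ := hm3 k
      exact hne ((mem_br hk hi).trans (congrFun hy i))
    · obtain ⟨i, hi⟩ := Function.ne_iff.1 hy
      have h1 : ∀ᶠ n in atTop, a (e (φ n)).1 i = x i := by
        have h2 := ((continuous_apply i).tendsto x).comp hx
        have h3 : ({x i} : Set Bool) ∈ 𝓝 (x i) := by simp
        exact h2 h3
      obtain ⟨M, hM⟩ := eventually_atTop.1 h1
      refine ((finite_Iio (max M (i + 1))).image f).subset ?_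
      rintro _ ⟨⟨k, rfl⟩, hk⟩
      refine ⟨k, ?_, rfl⟩
      by_contra hcon
      rw [mem_Iio, not_lt, max_le_iff] at hcon
      have h4 := mem_br hk (i := i) (by have := hm1 k; omega)
      exact hi (h4.symm.trans (hM (N + k) (by omega)))

end Pool.Agent.H728.FU
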