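import Mathlib
import Pool.Agent.H728.FU.Main1
import Pool.Agent.H728.FU.Space

/-!
# A Fréchet–Urysohn compactum whose function space maps onto an uncountable cube
-/

set_option autoImplicit false

namespace Pool.Agent.H728.FU

open Set Filter Topology Cardinal Pool.Agent.H33.CImg2 Pool.Agent.W684.FM
open Pool.Agent.H33.NoEmb Pool.Agent.H33.Spl1 Pool.Agent.H33.Spl5 Pool.Agent.H33.CpCp

theorem fin_of_not_pos {S ι : Type} {A : ι → Set S} (had : ∀ i j, i ≠ j → (A i ∩ A j).Finite)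
    {E : Set S} (h : ¬ Pos A E) : ∃ F : Finset ι, ∀ i ∉ F, (E ∩ A i).Finite := by
  unfold Pos at h
  push Not at h
  obtain ⟨F, R, hFR⟩ := h
  refine ⟨F, fun i hi => ?_⟩
  refine ((F.finite_toSet.biUnion (t := fun j => A i ∩ A j) fun j hj => had i j fun h => hi (by
    rw [h]; exact hj)).union R.finite_toSet).subset ?_
  rintro s ⟨hs, hsi⟩
  by_cases hR : s ∈ R
  · exact Or.inr hR
  · obtain ⟨j, hj, hsj⟩ := hFR s hs hR
    exact Or.inl (mem_iUnion₂.2 ⟨j, hj, hsi, hsj⟩)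

theorem br_ad {x x' : ℕ → Bool} (h : x ≠ x') : (br x ∩ br x').Finite := by
  obtain ⟨i, hi⟩ := Function.ne_iff.1 h
  refine ((finite_Iic i).image fun n => (n, (Finset.range n).filter fun i => x i = true)).subset ?_
  rintro _ ⟨⟨n, rfl⟩, hn⟩
  refine ⟨n, mem_Iic.2 (not_lt.1 fun hin => hi (mem_br hn hin)), rfl⟩

variable {J : Type} (a : (J → Bool) → ℕ → Bool) (G : (J → Bool) → J × ℕ → ℕ)

/-- the right half with a fixed last coordinate -/
def rt (b : Bool) (q : (J × ℕ) × ℕ) : (ℕ × Finset ℕ) ⊕ (J × ℕ × ℕ × Bool) :=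
  .inr (q.1.1, q.1.2, q.2, b)

theorem rt_inj (b : Bool) : Function.Injective (rt (J := J) b) := by
  rintro ⟨⟨p, n⟩, k⟩ ⟨⟨p', n'⟩, k'⟩ h
  simp only [rt, Sum.inr.injEq, Prod.mk.injEq, and_true] at h
  obtain ⟨rfl, rfl, rfl⟩ := h
  rfl

theorem rt_mem_fam {b : Bool} {q : (J × ℕ) × ℕ} {y : J → Bool} (h : rt b q ∈ fam a G y) :
    q ∈ gr (G y) := by
  rcases h with ⟨n, hn⟩ | ⟨p, hp⟩
  · cases hn
  · simp only [rt, Sum.inr.injEq, Prod.mk.injEq] at hp
    obtain ⟨h1, h2, h3, -⟩ := hp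
    show q.2 = G y q.1
    rw [← h3, show q.1 = p from Prod.ext h1.symm h2.symm]

theorem inl_mem_fam {s : ℕ × Finset ℕ} {y : J → Bool} (h : .inl s ∈ fam a G y) :
    s ∈ br (a y) := by
  rcases h with ⟨n, hn⟩ | ⟨p, hp⟩
  · exact ⟨n, Sum.inl.inj hn⟩
  · cases hp

theorem out_fam (ha : a.Injective) (hG : ∀ y y', y ≠ y' → {p | G y p = G y' p}.Finite)
    (hmax : ∀ E, Pos (fun y => gr (G y)) E → Out (fun y => gr (G y)) E)
    (E : Set ((ℕ × Finset ℕ) ⊕ (J × ℕ × ℕ × Bool))) (hE : Pos (fam a G) E) : Out (fam a G) E := by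
  classical
  by_cases h1 : Pos (fun y => br (a y)) (Sum.inl ⁻¹' E)
  · obtain ⟨B, hB, hBi, hBA⟩ := out_br a ha _ h1
    refine ⟨Sum.inl '' B, ?_, hBi.image Sum.inl_injective.injOn, fun y => ?_⟩
    · rintro _ ⟨s, hs, rfl⟩
      exact hB hs
    · refine ((hBA y).image Sum.inl).subset ?_
      rintro _ ⟨⟨s, hs, rfl⟩, hsy⟩
      exact ⟨s, ⟨hs, inl_mem_fam a G hsy⟩, rfl⟩
  by_cases h2 : ∃ b, Pos (fun y => gr (G y)) (rt b ⁻¹' E)
  · obtain ⟨b, hb⟩ := h2
    obtain ⟨B, hB, hBi, hBA⟩ := hmax _ hb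
    refine ⟨rt b '' B, ?_, hBi.image (rt_inj b).injOn, fun y => ?_⟩
    · rintro _ ⟨s, hs, rfl⟩
      exact hB hs
    · refine ((hBA y).image (rt b)).subset ?_
      rintro _ ⟨⟨s, hs, rfl⟩, hsy⟩
      exact ⟨s, ⟨hs, rt_mem_fam a G hsy⟩, rfl⟩
  · have hgr : ∀ y y', y ≠ y' → (gr (G y) ∩ gr (G y')).Finite := fun y y' h =>
      gr_inter_gr_finite (hG y y' h)
    have hbr : ∀ y y', y ≠ y' → (br (a y) ∩ br (a y')).Finite := fun y y' h => br_ad (ha.ne h)
    push Not at h2
    obtain ⟨F1, hF1⟩ := fin_of_not_pos hbr h1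
    obtain ⟨F2, hF2⟩ := fin_of_not_pos hgr (h2 true)
    obtain ⟨F3, hF3⟩ := fin_of_not_pos hgr (h2 false)
    refine out_of_finite hE ((F1 ∪ F2 ∪ F3).finite_toSet.subset ?_)
    intro y hy
    by_contra hcon
    have hcon' : y ∉ F1 ∧ y ∉ F2 ∧ y ∉ F3 := by
      simpa [not_or] using hcon
    obtain ⟨h3a, h3b, h4⟩ := hcon'
    have h3 : y ∉ F1 ∧ y ∉ F2 := ⟨h3a, h3b⟩
    refine hy ((((hF1 y h3.1).image Sum.inl).union (((hF2 y h3.2).image (rt true)).union
      ((hF3 y h4).image (rt false)))).subset ?_)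
    rintro (s | ⟨p, n, k, b⟩) ⟨hs, hsy⟩
    · exact Or.inl ⟨s, ⟨hs, inl_mem_fam a G hsy⟩, rfl⟩
    · right
      have h5 : (rt b ((p, n), k)) ∈ fam a G y := hsy
      cases b
      · exact Or.inr ⟨((p, n), k), ⟨hs, rt_mem_fam a G h5⟩, rfl⟩
      · exact Or.inl ⟨((p, n), k), ⟨hs, rt_mem_fam a G h5⟩, rfl⟩

theorem main (hMA : ∀ κ < 𝔠, MartinAxiomCard κ) (g : (T1 → Bool) → T1 → ℕ)
    (hg : ∀ y y', y ≠ y' → {δ | g y δ = g y' δ}.Finite) :
    ∃ (K : Type) (_ : TopologicalSpace K), CompactSpace K ∧ T2Space K ∧ FrechetUrysohnSpace K ∧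
      (∀ S : Set K, S.Nonempty → ∃ x ∈ S, ∃ O : Set K, IsOpen O ∧ O ∩ S = {x}) ∧
      ∃ Ψ : Cp K → T1 → unitInterval, Continuous Ψ ∧ Ψ.Surjective := by
  classical
  obtain ⟨e⟩ : Nonempty (T1 × ℕ ≃ T1) := by
    rw [← Cardinal.eq]
    simp
  have hT1 : #T1 = ℵ₁ := by simp
  let J := T1 × ℕ
  have hJ : #J = ℵ₁ := (Cardinal.eq.2 ⟨e⟩).trans hT1
  have : Infinite J := by
    rw [infinite_iff, hJ]
    exact aleph0_le_aleph 1
  have hJN : #(J × ℕ) = ℵ₁ := by
    rw [mk_prod, Cardinal.lift_id, Cardinal.lift_id, mk_nat, hJ]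
    exact mul_eq_left (aleph0_le_aleph 1) (aleph0_le_aleph 1) aleph0_ne_zero
  -- the size of the index set
  have hcard : #(J → Bool) = 𝔠 := by
    apply le_antisymm
    · have : Infinite T1 := by
        rw [infinite_iff, hT1]
        exact aleph0_le_aleph 1
      have h1 : Function.Injective fun (y : T1 → Bool) (n : ℕ) => g y (Infinite.natEmbedding T1 n) := by
        intro y y' h
        by_contra hne
        refine infinite_range_of_injective (Infinite.natEmbedding T1).injective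
          ((hg y y' hne).subset ?_)
        rintro _ ⟨n, rfl⟩
        exact congrFun h n
      have h2 : #(T1 → Bool) ≤ 𝔠 := by
        refine (mk_le_of_injective h1).trans ?_
        rw [← power_def]
        simp
      refine le_trans (le_of_eq ?_) h2
      rw [← power_def, ← power_def, hJ, hT1]
    · rw [← power_def, hJ, mk_bool, ← two_power_aleph0]
      exact power_le_power_left two_ne_zero (aleph0_le_aleph 1)
  have hlt : ℵ₁ < (𝔠 : Cardinal.{0}) := by
    rw [← hcard, ← power_def, hJ, mk_bool]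
    exact cantor _
  let L := (𝔠 : Cardinal.{0}).ord.ToType
  have hL : #L = 𝔠 := mk_ord_toType _
  obtain ⟨φ⟩ : Nonempty (L ≃ (J → Bool)) := by
    rw [← Cardinal.eq, hL, hcard]
  let G₀ : (J → Bool) → J × ℕ → ℕ := fun y p => g (y ∘ e.symm) (e (e p.1, p.2))
  have hG₀ : ∀ y y', y ≠ y' → {p | G₀ y p = G₀ y' p}.Finite := fun y y' h =>
    (hg _ _ fun h' => h (e.symm.surjective.injective_comp_right h')).preimage
      (f := fun p : (T1 × ℕ) × ℕ => e (e p.1, p.2)) fun p _ q _ h => by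
        simpa [Prod.ext_iff] using h
  obtain ⟨m, hm⟩ := nowhere_max (P := J × ℕ) (L := L) (by rw [hJN, hL]; exact hlt)
    (fun y => by
      rw [hL]
      have h1 : #{z : L // z < y} < 𝔠 := mk_Iio_toType_ord_lt y
      have h2 : #{z : L // z ≤ y} ≤ #{z : L // z < y} + 1 := by
        rw [← mk_option]
        refine mk_le_of_injective (f := fun z : {z : L // z ≤ y} =>
          if h : z.1 < y then some ⟨z.1, h⟩ else none) ?_
        intro z z' h
        by_cases hz : z.1 < y <;> by_cases hz' : z'.1 < y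
        · simp only [dif_pos hz, dif_pos hz', Option.some.injEq, Subtype.mk.injEq] at h
          exact Subtype.ext h
        · simp [dif_pos hz, dif_neg hz'] at h
        · simp [dif_neg hz, dif_pos hz'] at h
        · exact Subtype.ext ((le_antisymm z.2 (not_lt.1 hz)).trans
            (le_antisymm z'.2 (not_lt.1 hz')).symm)
      exact h2.trans_lt (add_lt_of_lt aleph0_le_continuum h1 (one_lt_aleph0.trans_le
        aleph0_le_continuum)))
    (by rw [hL, continuum_power_aleph0]) (by rw [hL]; exact hMA) (fun l p => G₀ (φ l) p)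
    (fun l l' h => hG₀ _ _ (φ.injective.ne h))
  let G : (J → Bool) → J × ℕ → ℕ := fun y p => Nat.pair (G₀ y p) (m (φ.symm y) p)
  have hG : ∀ y y', y ≠ y' → {p | G y p = G y' p}.Finite := by
    intro y y' h
    refine (hG₀ y y' h).subset ?_
    intro p hp
    have h1 : Nat.pair (G₀ y p) (m (φ.symm y) p) = Nat.pair (G₀ y' p) (m (φ.symm y') p) := hp
    rw [Nat.pair_eq_pair] at h1
    exact h1.1
  have hfam : (fun l => gr fun p => Nat.pair (G₀ (φ l) p) (m l p)) = fun l => gr (G (φ l)) := by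
    funext l
    simp [G]
  have hmax : ∀ E, Pos (fun y => gr (G y)) E → Out (fun y => gr (G y)) E := by
    intro E hE
    have h1 : Pos (fun l => gr fun p => Nat.pair (G₀ (φ l) p) (m l p)) E := by
      rw [hfam]
      intro F R
      obtain ⟨s, hs, hsR, hsF⟩ := hE (F.image φ) R
      exact ⟨s, hs, hsR, fun i hi => hsF _ (Finset.mem_image_of_mem _ hi)⟩
    obtain ⟨B, hB, hBi, hBA⟩ := hm E h1
    refine ⟨B, hB, hBi, fun y => ?_⟩
    have h2 := hBA (φ.symm y)
    have h3 : gr (G y) = gr fun p => Nat.pair (G₀ (φ (φ.symm y)) p) (m (φ.symm y) p) := by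
      simp [G]
    show (B ∩ gr (G y)).Finite
    rw [h3]
    exact h2
  obtain ⟨j⟩ : Nonempty J := inferInstance
  let a : (J → Bool) → ℕ → Bool := fun y i => decide (G y (j, i.unpair.1) = i.unpair.2)
  have ha : a.Injective := by
    intro y y' h
    by_contra hne
    refine infinite_univ (((hG y y' hne).preimage (f := fun n : ℕ => (j, n))
      fun _ _ _ _ h => congrArg Prod.snd h).subset fun n _ => ?_)
    have h1 := congrFun h (Nat.pair n (G y (j, n)))
    simp only [a, Nat.unpair_pair, decide_true] at h1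
    exact (of_decide_eq_true h1.symm).symm
  have hA := fam_ad ha hG
  exact ⟨_, inferInstance, compact hA, inferInstance, frechetUrysohn hA (out_fam a G ha hG hmax),
    scattered, onto chi (digit hA)⟩

end Pool.Agent.H728.FU
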